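import Pool.Agent.Work.MP_ef7f46_tn.Interface

/-!
Block CLS of project TN (MP_ef7f46_co): classical form for one parameter.
-/

set_option autoImplicit false
open Classical Finset

noncomputable section

namespace TN

theorem cls_ok (h1 : Stmt_CMB) : Stmt_CLS := by
  obtain ⟨u₀, h⟩ := h1
  refine ⟨u₀, fun u hu => ?_⟩
  obtain ⟨A, hA, hcard, _, hT⟩ := h u hu
  set e : ℕ × ℕ → ℝ × ℝ := fun p => ((p.1 : ℝ), (p.2 : ℝ)) with he
  have einj : Function.Injective e := by
    intro p q hpq
    simp only [he, Prod.mk.injEq, Nat.cast_inj] at hpq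
    exact Prod.ext hpq.1 hpq.2
  refine ⟨A.image e, hA.image e, ?_⟩
  intro ε hε hε2 T hnet
  by_contra hcon
  push Not at hcon
  have hu0 : 0 < (u : ℝ) ^ 66 := by
    by_contra h0
    have h00 : (u : ℝ) ^ 66 = 0 := le_antisymm (not_lt.mp h0) (by positivity)
    rw [h00] at hε2
    simp at hε2
    linarith
  set T' := A.filter (fun p => e p ∈ T) with hT'
  have hT'card : T'.card ≤ T.card := by
    apply Finset.card_le_card_of_injOn e
    · intro p hp
      have := (Finset.mem_filter.mp (Finset.mem_coe.mp hp)).2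
      exact this
    · exact einj.injOn
  have hT'le : (T'.card : ℝ) ≤ lamf u * (u : ℝ) ^ 66 / 800 := by
    have : (T'.card : ℝ) ≤ T.card := by exact_mod_cast hT'card
    linarith
  obtain ⟨a, v, _, _, hrich, hmiss⟩ := hT T' (Finset.filter_subset _ _) hT'le
  have hne : ((-(v : ℝ)), (1 : ℝ)) ≠ (0, 0) := by
    intro h0
    have := (Prod.mk.inj h0).2
    norm_num at this
  have himg : (A.image e).card = A.card := Finset.card_image_of_injective _ einj
  have hfil : ((A.image e).filter (fun p => (-(v : ℝ)) * p.1 + 1 * p.2 = a)).card =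
      (A.filter (fun p => p.2 = a + p.1 * v)).card := by
    rw [Finset.filter_image, Finset.card_image_of_injective _ einj]
    congr 1
    apply Finset.filter_congr
    intro p _
    simp only [he]
    constructor
    · intro h2
      have h3 : (p.2 : ℝ) = a + p.1 * v := by linarith
      exact_mod_cast h3
    · intro h2
      have h3 : (p.2 : ℝ) = a + p.1 * v := by exact_mod_cast h2
      linarith
  obtain ⟨p, hpT, hp⟩ := hnet.2 (-(v : ℝ)) 1 a hne (by
    rw [hfil, himg]
    have hc : (A.card : ℝ) ≤ lamf u * (u : ℝ) ^ 66 := by exact_mod_cast hcard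
    have hc0 : (0 : ℝ) ≤ A.card := by positivity
    calc ε * (A.card : ℝ) ≤ 1 / (8 * (u : ℝ) ^ 66) * (lamf u * (u : ℝ) ^ 66) :=
          mul_le_mul hε2 hc hc0 (by positivity)
      _ = (lamf u : ℝ) / 8 := by
          have hw := hu0.ne'
          generalize (u : ℝ) ^ 66 = w at hw ⊢
          field_simp
      _ ≤ _ := hrich.le)
  obtain ⟨q, hqA, hq⟩ := Finset.mem_image.mp (hnet.1 hpT)
  have hqT : q ∈ T' := by
    rw [hT', Finset.mem_filter]
    refine ⟨hqA, ?_⟩
    rw [hq]
    exact hpT
  apply hmiss q hqT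
  rw [← hq] at hp
  simp only [he] at hp
  have h3 : (q.2 : ℝ) = a + q.1 * v := by linarith
  exact_mod_cast h3

end TN
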