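import Pool.Agent.Work.MP_ef7f46_tn.Interface

/-!
Block GST of project TN (MP_ef7f46_co): second order term of one step.
-/

set_option autoImplicit false
open Classical Finset

noncomputable section

namespace TN

theorem gst_ok (h1 : Stmt_STB) : Stmt_GST := by
  intro Q Λ _ _ X hR S hS β I
  have hN : (0 : ℝ) < X.N := by exact_mod_cast hR.lin.Npos
  set E := Real.exp X.lam with hE
  have hE0 : 0 < E := Real.exp_pos _
  set mu : ℝ := (X.lam : ℝ) / X.m with hmu
  have hmu0 : 0 ≤ mu := by positivity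
  have hEmu : 0 ≤ E * mu := mul_nonneg hE0.le hmu0
  set c : Q → ℝ := fun y => ∑ j, chi X.inc y (β j) with hc
  have hc0 : ∀ y, 0 ≤ c y := fun y => Finset.sum_nonneg (fun _ _ => by unfold chi; positivity)
  set t : Λ → ℝ := fun ℓ => ∑ j, (if β j ∈ X.inc ℓ then (1 : ℝ) else 0) with ht
  have ht0 : ∀ ℓ, 0 ≤ t ℓ := fun ℓ =>
    Finset.sum_nonneg (fun _ _ => by split_ifs <;> norm_num)
  have h2 : ∀ ℓ, |(step X S β I).W ℓ - S.W ℓ| ≤ E * mu + E * t ℓ := by
    intro ℓ
    obtain ⟨hw0, hw1⟩ := hS ℓ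
    simp only [step]
    by_cases hit : ∃ j ∈ I, β j ∈ X.inc ℓ
    · rw [if_pos hit]
      obtain ⟨j, _, hj⟩ := hit
      have h3 : (1 : ℝ) ≤ t ℓ := by
        calc (1 : ℝ) = if β j ∈ X.inc ℓ then (1 : ℝ) else 0 := by rw [if_pos hj]
          _ ≤ t ℓ := Finset.single_le_sum
            (f := fun j => if β j ∈ X.inc ℓ then (1 : ℝ) else 0)
            (fun _ _ => by split_ifs <;> norm_num) (Finset.mem_univ j)
      rw [zero_sub, abs_neg, abs_of_nonneg hw0]
      have h4 : E * 1 ≤ E * t ℓ := mul_le_mul_of_nonneg_left h3 hE0.le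
      linarith
    · rw [if_neg hit]
      have hb := (h1 Q Λ X hR).1 β (Fs X S β I) ℓ
      have h3 : S.W ℓ * (1 + hh X β (Fs X S β I) ℓ) - S.W ℓ
          = S.W ℓ * hh X β (Fs X S β I) ℓ := by ring
      rw [h3, abs_of_nonneg (mul_nonneg hw0 hb.1)]
      have h4 : S.W ℓ * hh X β (Fs X S β I) ℓ ≤ E * mu := mul_le_mul hw1 hb.2 hb.1 hE0.le
      have h5 : 0 ≤ E * t ℓ := mul_nonneg hE0.le (ht0 ℓ)
      linarith
  have h3 : ∀ y, ∑ ℓ, (if y ∈ X.inc ℓ then t ℓ else 0) = c y := by
    intro y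
    simp only [hc, ht, chi]
    simp_rw [Finset.card_filter]
    push_cast
    rw [Finset.sum_comm]
    apply Finset.sum_congr rfl
    intro ℓ _
    by_cases hy : y ∈ X.inc ℓ
    · simp [hy]
    · simp [hy]
  have h4 : ∀ y, ∑ ℓ, (if y ∈ X.inc ℓ then (1 : ℝ) else 0) ≤ X.N := by
    intro y
    have := hR.lin.deg y
    rw [Finset.card_filter] at this
    have h5 : ((∑ ℓ, if y ∈ X.inc ℓ then 1 else 0 : ℕ) : ℝ) ≤ (X.N : ℝ) := by exact_mod_cast this
    push_cast at h5
    exact h5
  have key : ∀ y, |G X (step X S β I).W y - G X S.W y| ≤ E * mu + E / X.N * c y := by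
    intro y
    have e1 : G X (step X S β I).W y - G X S.W y =
        (∑ ℓ, if y ∈ X.inc ℓ then ((step X S β I).W ℓ - S.W ℓ) else 0) / X.N := by
      unfold G dg
      rw [← sub_div, ← Finset.sum_sub_distrib]
      congr 1
      apply Finset.sum_congr rfl
      intro ℓ _
      split_ifs <;> simp
    rw [e1, abs_div, abs_of_pos hN, div_le_iff₀ hN]
    have e2 : (E * mu + E / X.N * c y) * X.N = E * mu * X.N + E * c y := by
      field_simp
    rw [e2]
    calc |∑ ℓ, if y ∈ X.inc ℓ then ((step X S β I).W ℓ - S.W ℓ) else 0|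
        ≤ ∑ ℓ, |if y ∈ X.inc ℓ then ((step X S β I).W ℓ - S.W ℓ) else 0| :=
          Finset.abs_sum_le_sum_abs _ _
      _ ≤ ∑ ℓ, (E * mu * (if y ∈ X.inc ℓ then (1 : ℝ) else 0) +
            E * (if y ∈ X.inc ℓ then t ℓ else 0)) := by
          apply Finset.sum_le_sum
          intro ℓ _
          split_ifs
          · have := h2 ℓ
            linarith
          · simp
      _ = E * mu * ∑ ℓ, (if y ∈ X.inc ℓ then (1 : ℝ) else 0) +
            E * ∑ ℓ, (if y ∈ X.inc ℓ then t ℓ else 0) := by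
          rw [Finset.sum_add_distrib, Finset.mul_sum, Finset.mul_sum]
      _ ≤ E * mu * X.N + E * c y := by
          rw [h3 y]
          have := mul_le_mul_of_nonneg_left (h4 y) hEmu
          linarith
  have hexp : Real.exp (2 * X.lam) = E ^ 2 := by
    rw [hE, ← Real.exp_nat_mul]
    norm_num
  have hq : (Fintype.card Q : ℝ) = qq X := by
    unfold qq
    rw [hR.lin.cardQ]
    push_cast
    ring
  calc ∑ y, (G X (step X S β I).W y - G X S.W y) ^ 2
      ≤ ∑ y, (2 * (E * mu) ^ 2 + 2 * (E / X.N * c y) ^ 2) := by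
        apply Finset.sum_le_sum
        intro y _
        have k := key y
        have k0 : 0 ≤ E / X.N * c y := mul_nonneg (div_nonneg hE0.le hN.le) (hc0 y)
        have k1 : (G X (step X S β I).W y - G X S.W y) ^ 2 ≤ (E * mu + E / X.N * c y) ^ 2 :=
          sq_le_sq' (by linarith [(abs_le.mp k).1]) (abs_le.mp k).2
        nlinarith [sq_nonneg (E * mu - E / X.N * c y)]
    _ = 2 * (E * mu) ^ 2 * Fintype.card Q + 2 * E ^ 2 / X.N ^ 2 * ∑ y, (c y) ^ 2 := by
        rw [Finset.sum_add_distrib, Finset.sum_const, Finset.card_univ, nsmul_eq_mul,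
          Finset.mul_sum]
        congr 1
        · ring
        · apply Finset.sum_congr rfl
          intro y _
          field_simp
    _ = _ := by
        rw [hexp, hq]
        simp only [hc, hmu]
        ring

end TN
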